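import Mathlib
import Pool.Agent.Lib.MP_27feec_al_LM.Final

/-!
# Quotients of complete locally minimal abelian groups by compact subgroups are locally minimal
-/

namespace Pool.Agent.Results.MP_27feec_al.QuotientTheorem

open Topology LocMin

theorem result {G : Type*} [AddCommGroup G] [UniformSpace G] [IsUniformAddGroup G] [T2Space G]
    [CompleteSpace G] (hG : LocallyMinimal G) (K : AddSubgroup G) (hK : IsCompact (K : Set G)) :
    LocallyMinimal (G ⧸ K) :=
  main K hK hG

end Pool.Agent.Results.MP_27feec_al.QuotientTheorem
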